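import Mathlib

/-!
# Local finiteness of the intermediate logics of products of linear orders

Let `W i`, `i ∈ ι`, be nonempty linear orders, and let `L` be the intermediate logic of the product
`∏ W i` with the componentwise order (`ι` is any set, finite or infinite). For every `k` there are
only finitely many formulas in `k` variables up to `L`-equivalence **if and only if** `k ≤ 1`, or
only finitely many `W i` have more than one element and at most one `W i` is infinite. In
particular the logic of `ω ^ n` is locally finite if and only if `n ≤ 1`, and for `n ≥ 2` already two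
variables yield infinitely many formulas, while one variable yields finitely many only.

* If `∏ W i` is a linear order times a finite order `P`, then every valuation of `k` variables factors
  through a p-morphism onto a frame on a subset of `𝒫(k × P) × P`: send `(w, p)` to
  `({(i, p') : (w, p') ∈ V i}, p)`.
* The one-variable fragment of the logic of an up-directed order is determined by the values of the
  formula in the three-element Heyting chain for the values `0` and `1` (the middle) of the variable.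
* If there are two infinite factors, or infinitely many nontrivial ones, then for each `s` there are
  two monotone functions `f₀`, `f₁` on the product whose values can be raised independently up to
  `s`. The formulas `F m i` say that there is no `y` above with `f₀ y + f₁ y = s - m` and
  `f₀ y ≡ i (mod 3)` (these formulas in two variables, for `ω ^ n`, are in the starting files).
-/

set_option autoImplicit false

namespace Pool.Agent.Results.MP_d96af6_lc.ProductsOfChains

universe u v

/-- Intuitionistic propositional formulas. -/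
inductive IForm : Type
  | var : ℕ → IForm
  | bot : IForm
  | and : IForm → IForm → IForm
  | or : IForm → IForm → IForm
  | imp : IForm → IForm → IForm

/-- Kripke forcing in a preorder `W` under the valuation `V`. -/
def Forces {W : Type u} [Preorder W] (V : ℕ → Set W) : IForm → W → Prop
  | .var n, w => w ∈ V n
  | .bot, _ => False
  | .and a b, w => Forces V a w ∧ Forces V b w
  | .or a b, w => Forces V a w ∨ Forces V b w
  | .imp a b, w => ∀ v, w ≤ v → Forces V a v → Forces V b v

/-- The intermediate logic of the partial order `W`: formulas true at every point under every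
valuation of the variables by upward closed sets. -/
def ILog (W : Type u) [Preorder W] : Set IForm :=
  {φ | ∀ V : ℕ → Set W, (∀ n, IsUpperSet (V n)) → ∀ w, Forces V φ w}

/-- `φ` is built from the variables `p_0, ..., p_{k-1}` only. -/
def InVars (k : ℕ) : IForm → Prop
  | .var n => n < k
  | .bot => True
  | .and a b => InVars k a ∧ InVars k b
  | .or a b => InVars k a ∧ InVars k b
  | .imp a b => InVars k a ∧ InVars k b

/-- `L`-equivalence of formulas: `(φ → ψ) ∧ (ψ → φ)` belongs to `L`. -/
def LEquiv (L : Set IForm) (φ ψ : IForm) : Prop :=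
  IForm.and (.imp φ ψ) (.imp ψ φ) ∈ L

/-- Up to `L`-equivalence there are only finitely many formulas in `p_0, ..., p_{k-1}`. -/
def FinitelyManyIn (L : Set IForm) (k : ℕ) : Prop :=
  ∃ S : Set IForm, S.Finite ∧ ∀ φ, InVars k φ → ∃ ψ ∈ S, LEquiv L φ ψ

/-- A logic is locally finite if for every `k` there are only finitely many formulas in `k`
variables up to equivalence. -/
def LocallyFinite (L : Set IForm) : Prop := ∀ k, FinitelyManyIn L k

/-! ### General criteria for finiteness -/

theorem InVars.mono {k l : ℕ} (h : k ≤ l) : ∀ {φ : IForm}, InVars k φ → InVars l φ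
  | .var _, hφ => lt_of_lt_of_le hφ h
  | .bot, _ => trivial
  | .and _ _, hφ => ⟨InVars.mono h hφ.1, InVars.mono h hφ.2⟩
  | .or _ _, hφ => ⟨InVars.mono h hφ.1, InVars.mono h hφ.2⟩
  | .imp _ _, hφ => ⟨InVars.mono h hφ.1, InVars.mono h hφ.2⟩

theorem FinitelyManyIn.mono {L : Set IForm} {k l : ℕ} (h : k ≤ l) (hL : FinitelyManyIn L l) :
    FinitelyManyIn L k := by
  obtain ⟨S, hS, hS2⟩ := hL
  exact ⟨S, hS, fun φ hφ => hS2 φ (hφ.mono h)⟩

/-- finitely many classes -/
theorem finitely_of_class {L : Set IForm} {k : ℕ} {T : Type v} [Finite T] (c : IForm → T)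
    (h : ∀ φ ψ, InVars k φ → InVars k ψ → c φ = c ψ → LEquiv L φ ψ) : FinitelyManyIn L k := by
  classical
  let rep : T → IForm := fun t =>
    if ht : ∃ φ, InVars k φ ∧ c φ = t then ht.choose else .bot
  refine ⟨Set.range rep, Set.finite_range rep, fun φ hφ => ⟨rep (c φ), ⟨_, rfl⟩, ?_⟩⟩
  have ht : ∃ ψ, InVars k ψ ∧ c ψ = c φ := ⟨φ, hφ, rfl⟩
  have e : rep (c φ) = ht.choose := dif_pos ht
  rw [e]
  exact h φ _ hφ ht.choose_spec.1 ht.choose_spec.2.symm

/-- forcing with respect to a relation -/
def ForcesR {Y : Type v} (R : Y → Y → Prop) (V : ℕ → Set Y) : IForm → Y → Prop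
  | .var n, w => w ∈ V n
  | .bot, _ => False
  | .and a b, w => ForcesR R V a w ∧ ForcesR R V b w
  | .or a b, w => ForcesR R V a w ∨ ForcesR R V b w
  | .imp a b, w => ∀ v, R w v → ForcesR R V a v → ForcesR R V b v

theorem forces_quot {X : Type u} [Preorder X] {Y : Type v} (R : Y → Y → Prop) (q : X → Y)
    (h1 : ∀ x y, x ≤ y → R (q x) (q y)) (h2 : ∀ x u, R (q x) u → ∃ y, x ≤ y ∧ q y = u)
    (V : ℕ → Set X) (V' : ℕ → Set Y) {k : ℕ} (hV : ∀ n < k, ∀ x, x ∈ V n ↔ q x ∈ V' n) :
    ∀ φ : IForm, InVars k φ → ∀ x, Forces V φ x ↔ ForcesR R V' φ (q x)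
  | .var n, hφ, x => hV n hφ x
  | .bot, _, _ => Iff.rfl
  | .and a b, hφ, x => and_congr (forces_quot R q h1 h2 V V' hV a hφ.1 x)
      (forces_quot R q h1 h2 V V' hV b hφ.2 x)
  | .or a b, hφ, x => or_congr (forces_quot R q h1 h2 V V' hV a hφ.1 x)
      (forces_quot R q h1 h2 V V' hV b hφ.2 x)
  | .imp a b, hφ, x => by
    constructor
    · intro h u hu ha
      obtain ⟨y, hxy, rfl⟩ := h2 x u hu
      exact (forces_quot R q h1 h2 V V' hV b hφ.2 y).1
        (h y hxy ((forces_quot R q h1 h2 V V' hV a hφ.1 y).2 ha))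
    · intro h y hxy ha
      exact (forces_quot R q h1 h2 V V' hV b hφ.2 y).2
        (h (q y) (h1 x y hxy) ((forces_quot R q h1 h2 V V' hV a hφ.1 y).1 ha))

/-- extension of a valuation of the first `k` variables -/
def ext {Y : Type v} {k : ℕ} (V : Fin k → Set Y) (n : ℕ) : Set Y :=
  {y | ∃ h : n < k, y ∈ V ⟨n, h⟩}

/-- If all valuations of `k` variables factor through p-morphisms to relations on one finite
type then there are finitely many formulas in `k` variables. -/
theorem finitely_of_quot {X : Type u} [Preorder X] {k : ℕ} (Y : Type v) [Finite Y]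
    (h : ∀ V : ℕ → Set X, (∀ n, IsUpperSet (V n)) → ∃ (R : Y → Y → Prop) (q : X → Y)
      (V' : Fin k → Set Y), (∀ x y, x ≤ y → R (q x) (q y)) ∧
        (∀ x u, R (q x) u → ∃ y, x ≤ y ∧ q y = u) ∧
        ∀ (n : Fin k) (x : X), x ∈ V n ↔ q x ∈ V' n) :
    FinitelyManyIn (ILog X) k := by
  refine finitely_of_class (T := (Y → Y → Prop) × (Fin k → Set Y) → Set Y)
    (fun φ p => {y | ForcesR p.1 (ext p.2) φ y}) ?_
  intro φ ψ hφ hψ hc V hV x
  obtain ⟨R, q, V', h1, h2, h3⟩ := h V hV
  have hV' : ∀ n < k, ∀ x, x ∈ V n ↔ q x ∈ ext V' n := by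
    intro n hn x
    rw [h3 ⟨n, hn⟩ x]
    exact ⟨fun h => ⟨hn, h⟩, fun ⟨_, h⟩ => h⟩
  have hiff : ∀ y, Forces V φ y ↔ Forces V ψ y := by
    intro y
    rw [forces_quot R q h1 h2 V _ hV' φ hφ y, forces_quot R q h1 h2 V _ hV' ψ hψ y]
    have := congrFun hc (R, V')
    exact Set.ext_iff.1 this (q y)
  exact ⟨fun y _ h => (hiff y).1 h, fun y _ h => (hiff y).2 h⟩

/-- order isomorphisms preserve the logic -/
theorem ilog_congr {X : Type u} {Y : Type v} [Preorder X] [Preorder Y] (e : X ≃o Y) {φ : IForm}
    (h : φ ∈ ILog Y) : φ ∈ ILog X := by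
  intro V hV x
  let V' : ℕ → Set Y := fun n => e.symm ⁻¹' V n
  have hV' : ∀ n, IsUpperSet (V' n) := fun n a b hab ha => hV n (e.symm.monotone hab) ha
  have key : ∀ (φ : IForm) (x : X), Forces V φ x ↔ Forces V' φ (e x) := by
    intro φ
    induction φ with
    | var n => intro x; simp [Forces, V']
    | bot => intro x; exact Iff.rfl
    | and a b iha ihb => intro x; exact and_congr (iha x) (ihb x)
    | or a b iha ihb => intro x; exact or_congr (iha x) (ihb x)
    | imp a b iha ihb =>
      intro x
      constructor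
      · intro h y hy ha
        have h1 : x ≤ e.symm y := by rw [← e.le_iff_le]; simpa using hy
        have h2 := (ihb (e.symm y)).1 (h _ h1 ((iha (e.symm y)).2 (by simpa using ha)))
        simpa using h2
      · intro h y hy ha
        exact (ihb y).2 (h (e y) (e.monotone hy) ((iha y).1 ha))
  exact (key φ x).2 (h V' hV' (e x))

theorem FinitelyManyIn.congr {X : Type u} {Y : Type v} [Preorder X] [Preorder Y] (e : X ≃o Y)
    {k : ℕ} (h : FinitelyManyIn (ILog Y) k) : FinitelyManyIn (ILog X) k := by
  obtain ⟨S, hS, hS2⟩ := h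
  refine ⟨S, hS, fun φ hφ => ?_⟩
  obtain ⟨ψ, hψ, h⟩ := hS2 φ hφ
  exact ⟨ψ, hψ, ilog_congr e h⟩

/-! ### One linear order times a finite order -/

theorem finitely_prod {W : Type u} [LinearOrder W] {P : Type v} [Preorder P] [Finite P] (k : ℕ) :
    FinitelyManyIn (ILog (W × P)) k := by
  refine finitely_of_quot (Set (Fin k × P) × P) fun V hV => ?_
  let T : W → Set (Fin k × P) := fun w => {z | (w, z.2) ∈ V z.1}
  have hT : ∀ w w', w ≤ w' → T w ⊆ T w' := fun w w' h z hz =>
    hV z.1 (Prod.mk_le_mk.2 ⟨h, le_rfl⟩) hz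
  refine ⟨fun a b => a.1 ⊆ b.1 ∧ a.2 ≤ b.2 ∧ b.1 ∈ Set.range T, fun x => (T x.1, x.2),
    fun n => {z | (n, z.2) ∈ z.1}, ?_, ?_, ?_⟩
  · intro x y h
    exact ⟨hT _ _ h.1, h.2, ⟨_, rfl⟩⟩
  · rintro ⟨w, p⟩ ⟨B, p'⟩ ⟨h1, h2, ⟨w', rfl⟩⟩
    rcases le_total w w' with h | h
    · exact ⟨(w', p'), ⟨h, h2⟩, rfl⟩
    · exact ⟨(w, p'), ⟨le_rfl, h2⟩, Prod.ext (Set.Subset.antisymm h1 (hT _ _ h)) rfl⟩
  · intro n x
    exact Iff.rfl

/-! ### The one-variable fragment for directed orders -/

/-- value in the three-element Heyting chain if all variables have the value `j` -/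
def gv (j : Fin 3) : IForm → Fin 3
  | .var _ => j
  | .bot => 0
  | .and a b => min (gv j a) (gv j b)
  | .or a b => max (gv j a) (gv j b)
  | .imp a b => if gv j a ≤ gv j b then 2 else gv j b

theorem forces_empty {X : Type u} [Preorder X] {V : ℕ → Set X} (hV : V 0 = ∅) :
    ∀ φ : IForm, InVars 1 φ → (gv 0 φ = 0 ∨ gv 0 φ = 2) ∧ ∀ x, Forces V φ x ↔ gv 0 φ = 2
  | .var n, hφ => by
    have : n = 0 := Nat.lt_one_iff.1 hφ
    subst this
    exact ⟨Or.inl rfl, fun x => by simp [Forces, hV, gv]⟩
  | .bot, _ => ⟨Or.inl rfl, fun x => by simp [Forces, gv]⟩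
  | .and a b, hφ => by
    obtain ⟨ha, ha'⟩ := forces_empty hV a hφ.1
    obtain ⟨hb, hb'⟩ := forces_empty hV b hφ.2
    simp only [Forces, gv, ha', hb']
    rcases ha with ha | ha <;> rcases hb with hb | hb <;> simp [ha, hb]
  | .or a b, hφ => by
    obtain ⟨ha, ha'⟩ := forces_empty hV a hφ.1
    obtain ⟨hb, hb'⟩ := forces_empty hV b hφ.2
    simp only [Forces, gv, ha', hb']
    rcases ha with ha | ha <;> rcases hb with hb | hb <;> simp [ha, hb]
  | .imp a b, hφ => by
    obtain ⟨ha, ha'⟩ := forces_empty hV a hφ.1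
    obtain ⟨hb, hb'⟩ := forces_empty hV b hφ.2
    simp only [Forces, gv, ha', hb']
    rcases ha with ha | ha <;> rcases hb with hb | hb <;> simp [ha, hb]
    intro x
    exact ⟨x, le_rfl⟩

theorem forces_nonempty {X : Type u} [Preorder X] [IsDirectedOrder X] {V : ℕ → Set X}
    (hV : (V 0).Nonempty) (hu : IsUpperSet (V 0)) :
    ∀ φ : IForm, InVars 1 φ → ∀ x, Forces V φ x ↔ (gv 1 φ = 2 ∨ (gv 1 φ = 1 ∧ x ∈ V 0))
  | .var n, hφ, x => by
    have : n = 0 := Nat.lt_one_iff.1 hφ
    subst this
    simp [Forces, gv]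
  | .bot, _, x => by simp [Forces, gv]
  | .and a b, hφ, x => by
    have ha := forces_nonempty hV hu a hφ.1 x
    have hb := forces_nonempty hV hu b hφ.2 x
    simp only [Forces, gv, ha, hb]
    generalize gv 1 a = s
    generalize gv 1 b = t
    fin_cases s <;> fin_cases t <;> simp
  | .or a b, hφ, x => by
    have ha := forces_nonempty hV hu a hφ.1 x
    have hb := forces_nonempty hV hu b hφ.2 x
    simp only [Forces, gv, ha, hb]
    generalize gv 1 a = s
    generalize gv 1 b = t
    fin_cases s <;> fin_cases t <;> simp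
  | .imp a b, hφ, x => by
    have ha := forces_nonempty hV hu a hφ.1
    have hb := forces_nonempty hV hu b hφ.2
    obtain ⟨z, hz⟩ := hV
    obtain ⟨y, hxy, hzy⟩ := exists_ge_ge x z
    have hy : y ∈ V 0 := hu hzy hz
    simp only [Forces, gv, ha, hb]
    generalize gv 1 a = s
    generalize gv 1 b = t
    fin_cases s <;> fin_cases t <;> simp
    · exact ⟨y, hxy, hy⟩
    · exact ⟨x, le_rfl⟩
    · exact ⟨fun h => h x le_rfl, fun h w hw => hu hw h⟩

theorem finitely_one {X : Type u} [Preorder X] [IsDirectedOrder X] :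
    FinitelyManyIn (ILog X) 1 := by
  refine finitely_of_class (T := Fin 3 × Fin 3) (fun φ => (gv 0 φ, gv 1 φ)) ?_
  intro φ ψ hφ hψ hc V hV x
  rw [Prod.mk.injEq] at hc
  have hiff : ∀ y, Forces V φ y ↔ Forces V ψ y := by
    intro y
    rcases (V 0).eq_empty_or_nonempty with h | h
    · rw [(forces_empty h φ hφ).2 y, (forces_empty h ψ hψ).2 y, hc.1]
    · rw [forces_nonempty h (hV 0) φ hφ y, forces_nonempty h (hV 0) ψ hψ y, hc.2]
  exact ⟨fun y _ h => (hiff y).1 h, fun y _ h => (hiff y).2 h⟩

/-! ### Infinitely many formulas in two variables -/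

/-- The variables `p`, `q`. -/
def P : IForm := .var 0
/-- See `P`. -/
def Q : IForm := .var 1

/-- The separating formulas. -/
def F : ℕ → ℕ → IForm
  | 0, i => if i % 3 = 0 then .imp P Q else if i % 3 = 1 then .imp Q P else
      .imp (.and (.imp P Q) (.imp Q P)) (.or P Q)
  | n + 1, i => .imp (F n (i + 2)) (.or (F n i) (F n (i + 1)))

theorem inVars_F (n : ℕ) : ∀ i, InVars 2 (F n i) := by
  induction n with
  | zero =>
    intro i
    unfold F
    split_ifs <;> simp [InVars, P, Q]
  | succ n ih =>
    intro i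
    exact ⟨ih _, ih _, ih _⟩

/-- Two monotone functions on `X` whose values can be raised independently up to the sum `s`. -/
structure Grid (X : Type u) [Preorder X] (s : ℕ) where
  f0 : X → ℕ
  f1 : X → ℕ
  mono0 : Monotone f0
  mono1 : Monotone f1
  base : X
  base0 : f0 base = 0
  base1 : f1 base = 0
  lift : ∀ (x : X) (a b : ℕ), f0 x ≤ a → f1 x ≤ b → a + b ≤ s → ∃ y, x ≤ y ∧ f0 y = a ∧ f1 y = b

section

variable {X : Type u} [Preorder X] {s : ℕ} (g : Grid X s)

/-- The valuation. -/
def Val : ℕ → Set X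
  | 0 => {x | s < g.f0 x + g.f1 x ∨ (g.f0 x + g.f1 x = s ∧ g.f0 x % 3 = 0)}
  | 1 => {x | s < g.f0 x + g.f1 x ∨ (g.f0 x + g.f1 x = s ∧ g.f0 x % 3 = 1)}
  | _ + 2 => ∅

/-- Geometric meaning of the formulas. -/
def Good (s n i a b : ℕ) : Prop := ∀ a', a ≤ a' → a' + n + b ≤ s → a' % 3 ≠ i % 3

theorem val_upper : ∀ k, IsUpperSet (Val g k) := by
  intro k x y hxy hx
  have h0 : g.f0 x ≤ g.f0 y := g.mono0 hxy
  have h1 : g.f1 x ≤ g.f1 y := g.mono1 hxy
  match k, hx with
  | 0, hx =>
    change s < g.f0 y + g.f1 y ∨ (g.f0 y + g.f1 y = s ∧ g.f0 y % 3 = 0)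
    rcases (hx : s < g.f0 x + g.f1 x ∨ (g.f0 x + g.f1 x = s ∧ g.f0 x % 3 = 0)) with h | ⟨h, h'⟩
    · left; omega
    · rcases Nat.lt_or_ge s (g.f0 y + g.f1 y) with h2 | h2
      · left; exact h2
      · right
        have : g.f0 y = g.f0 x := by omega
        exact ⟨by omega, by rw [this]; exact h'⟩
  | 1, hx =>
    change s < g.f0 y + g.f1 y ∨ (g.f0 y + g.f1 y = s ∧ g.f0 y % 3 = 1)
    rcases (hx : s < g.f0 x + g.f1 x ∨ (g.f0 x + g.f1 x = s ∧ g.f0 x % 3 = 1)) with h | ⟨h, h'⟩
    · left; omega
    · rcases Nat.lt_or_ge s (g.f0 y + g.f1 y) with h2 | h2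
      · left; exact h2
      · right
        have : g.f0 y = g.f0 x := by omega
        exact ⟨by omega, by rw [this]; exact h'⟩
  | k + 2, hx => exact hx.elim

theorem mem_val0 {x : X} :
    Forces (Val g) P x ↔ (s < g.f0 x + g.f1 x ∨ (g.f0 x + g.f1 x = s ∧ g.f0 x % 3 = 0)) := Iff.rfl

theorem mem_val1 {x : X} :
    Forces (Val g) Q x ↔ (s < g.f0 x + g.f1 x ∨ (g.f0 x + g.f1 x = s ∧ g.f0 x % 3 = 1)) := Iff.rfl

theorem forces_PQ (x : X) :
    Forces (Val g) (.imp P Q) x ↔ Good s 0 0 (g.f0 x) (g.f1 x) := by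
  constructor
  · intro h a' ha hs hmod
    obtain ⟨y, hxy, hy0, hy1⟩ := g.lift x a' (s - a') ha (by omega) (by omega)
    have hP : Forces (Val g) P y := by
      rw [mem_val0]; right
      rw [hy0, hy1]; exact ⟨by omega, by simpa using hmod⟩
    have hQ := h y hxy hP
    rw [mem_val1, hy0, hy1] at hQ
    rcases hQ with h1 | ⟨_, h2⟩
    · omega
    · simp at hmod; omega
  · intro h y hxy hP
    rw [mem_val0] at hP
    rw [mem_val1]
    rcases hP with h1 | ⟨h1, h2⟩
    · exact Or.inl h1
    · exact absurd (by simpa using h2)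
        (h (g.f0 y) (g.mono0 hxy) (by have : g.f1 x ≤ g.f1 y := g.mono1 hxy; omega))

theorem forces_QP (x : X) :
    Forces (Val g) (.imp Q P) x ↔ Good s 0 1 (g.f0 x) (g.f1 x) := by
  constructor
  · intro h a' ha hs hmod
    obtain ⟨y, hxy, hy0, hy1⟩ := g.lift x a' (s - a') ha (by omega) (by omega)
    have hP : Forces (Val g) Q y := by
      rw [mem_val1]; right
      rw [hy0, hy1]; exact ⟨by omega, by simpa using hmod⟩
    have hQ := h y hxy hP
    rw [mem_val0, hy0, hy1] at hQ
    rcases hQ with h1 | ⟨_, h2⟩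
    · omega
    · simp at hmod; omega
  · intro h y hxy hP
    rw [mem_val1] at hP
    rw [mem_val0]
    rcases hP with h1 | ⟨h1, h2⟩
    · exact Or.inl h1
    · exact absurd (by simpa using h2)
        (h (g.f0 y) (g.mono0 hxy) (by have : g.f1 x ≤ g.f1 y := g.mono1 hxy; omega))

theorem good_congr {s m i j a b : ℕ} (h : i % 3 = j % 3) : Good s m i a b ↔ Good s m j a b := by
  unfold Good; rw [h]

theorem forces_F (m : ℕ) :
    ∀ (i : ℕ) (x : X), Forces (Val g) (F m i) x ↔ Good s m i (g.f0 x) (g.f1 x) := by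
  induction m with
  | zero =>
    intro i x
    unfold F
    split_ifs with h0 h1
    · rw [forces_PQ, good_congr (show 0 % 3 = i % 3 by omega)]
    · rw [forces_QP, good_congr (show 1 % 3 = i % 3 by omega)]
    · constructor
      · intro h a' ha hs hmod
        obtain ⟨y, hxy, hy0, hy1⟩ := g.lift x a' (s - a') ha (by omega) (by omega)
        have h3 : Forces (Val g) (.or P Q) y := by
          refine h y hxy ⟨?_, ?_⟩
          · rw [forces_PQ, hy0, hy1]
            intro a'' h1' h2'
            have : a'' = a' := by omega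
            subst this; omega
          · rw [forces_QP, hy0, hy1]
            intro a'' h1' h2'
            have : a'' = a' := by omega
            subst this; omega
        rcases h3 with h3 | h3
        · rw [mem_val0, hy0, hy1] at h3; omega
        · rw [mem_val1, hy0, hy1] at h3; omega
      · rintro h y hxy ⟨hPQ, hQP⟩
        rw [forces_PQ] at hPQ
        rw [forces_QP] at hQP
        have hx0 : g.f0 x ≤ g.f0 y := g.mono0 hxy
        have hx1 : g.f1 x ≤ g.f1 y := g.mono1 hxy
        rcases Nat.lt_or_ge s (g.f0 y + g.f1 y) with h2 | h2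
        · left; exact Or.inl h2
        · exfalso
          have e0 := h (g.f0 y) hx0 (by omega)
          have e1 := hPQ (g.f0 y) le_rfl (by omega)
          have e2 := hQP (g.f0 y) le_rfl (by omega)
          omega
  | succ m ih =>
    intro i x
    constructor
    · intro h a' ha hs hmod
      obtain ⟨y, hxy, hy0, hy1⟩ := g.lift x a' (s - (m + 1) - a') ha (by omega) (by omega)
      have h3 := h y hxy ((ih (i + 2) y).mpr (by
        rw [hy0, hy1]
        intro a'' h1' h2'
        have : a'' = a' ∨ a'' = a' + 1 := by omega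
        rcases this with rfl | rfl <;> omega))
      rcases h3 with h3 | h3
      · rw [ih, hy0, hy1] at h3
        exact h3 a' le_rfl (by omega) hmod
      · rw [ih, hy0, hy1] at h3
        exact h3 (a' + 1) (by omega) (by omega) (by omega)
    · intro h y hxy h2
      rw [ih] at h2
      by_contra hcon
      have hcon' : ¬ (Forces (Val g) (F m i) y ∨ Forces (Val g) (F m (i + 1)) y) := hcon
      rw [ih, ih] at hcon'
      have hcon1 : ¬ Good s m i (g.f0 y) (g.f1 y) := fun h => hcon' (Or.inl h)
      have hcon2 : ¬ Good s m (i + 1) (g.f0 y) (g.f1 y) := fun h => hcon' (Or.inr h)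
      unfold Good at hcon1 hcon2
      push Not at hcon1 hcon2
      obtain ⟨a1, h11, h12, h13⟩ := hcon1
      obtain ⟨a2, h21, h22, h23⟩ := hcon2
      have hx0 : g.f0 x ≤ g.f0 y := g.mono0 hxy
      have hx1 : g.f1 x ≤ g.f1 y := g.mono1 hxy
      rcases Nat.lt_or_ge a1 a2 with hlt | hge
      · exact h a1 (by omega) (by omega) h13
      · have : a2 ≠ a1 := by rintro rfl; omega
        exact h2 (a2 + 1) (by omega) (by omega) (by omega)

end

/-- grids of all sizes give infinitely many formulas in two variables -/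
theorem infinitely_of_grids {X : Type u} [Preorder X] (hX : ∀ s, Nonempty (Grid X s)) :
    ¬ FinitelyManyIn (ILog X) 2 := by
  rintro ⟨S, hS, h⟩
  choose f hfS hf using fun m : ℕ => h (F m 0) (inVars_F m 0)
  have hninj : ¬ Function.Injective (fun m : ℕ => (⟨f m, hfS m⟩ : S)) := by
    have : Finite S := hS
    exact not_injective_infinite_finite _
  have key : ∀ a b : ℕ, a < b → f a ≠ f b := by
    intro a b hab heq
    have h1 := hf a
    have h2 := hf b
    rw [← heq] at h2
    obtain ⟨g⟩ := hX a
    have hu := val_upper g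
    have hb : Forces (Val g) (F b 0) g.base := by
      rw [forces_F]
      intro a' _ h3
      rw [g.base1] at h3
      omega
    have hψ : Forces (Val g) (f a) g.base := (h2 _ hu g.base).1 g.base le_rfl hb
    have ha : Forces (Val g) (F a 0) g.base := (h1 _ hu g.base).2 g.base le_rfl hψ
    rw [forces_F] at ha
    exact ha 0 (by rw [g.base0]) (by rw [g.base1]; omega) rfl
  apply hninj
  intro a b hab
  have hab' : f a = f b := congrArg Subtype.val hab
  rcases Nat.lt_trichotomy a b with h | h | h
  · exact absurd hab' (key a b h)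
  · exact h
  · exact absurd hab'.symm (key b a h)

/-! ### Grids in products of linear orders -/

section

variable {ι : Type u} {W : ι → Type v} [∀ i, LinearOrder (W i)]

/-- number of the points of `S i` below `x i`, summed over `i ∈ A` -/
def ht (A : Finset ι) (S : ∀ i, Finset (W i)) (x : ∀ i, W i) : ℕ :=
  ∑ i ∈ A, ((S i).filter (· ≤ x i)).card

theorem ht_mono (A : Finset ι) (S : ∀ i, Finset (W i)) : Monotone (ht A S) := by
  intro x y hxy
  refine Finset.sum_le_sum fun i _ => Finset.card_le_card fun t ht => ?_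
  rw [Finset.mem_filter] at ht ⊢
  exact ⟨ht.1, ht.2.trans (hxy i)⟩

theorem ht_succ [DecidableEq ι] (A : Finset ι) (S : ∀ i, Finset (W i)) (x : ∀ i, W i)
    (h : ht A S x < ∑ i ∈ A, (S i).card) :
    ∃ y, x ≤ y ∧ (∀ i ∉ A, y i = x i) ∧ ht A S y = ht A S x + 1 := by
  obtain ⟨i, hi, hlt⟩ : ∃ i ∈ A, ((S i).filter (· ≤ x i)).card < (S i).card := by
    by_contra hcon
    push Not at hcon
    exact absurd (Finset.sum_le_sum hcon) (by unfold ht at h; omega)
  have hne : ((S i).filter (x i < ·)).Nonempty := by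
    rw [Finset.nonempty_iff_ne_empty]
    intro he
    have : (S i).filter (· ≤ x i) = S i := by
      rw [Finset.filter_true_of_mem]
      intro t ht
      by_contra hc
      have : t ∈ (S i).filter (x i < ·) := Finset.mem_filter.2 ⟨ht, not_le.1 hc⟩
      rw [he] at this
      simp at this
    rw [this] at hlt
    exact lt_irrefl _ hlt
  set m := ((S i).filter (x i < ·)).min' hne with hm
  have hmS : m ∈ S i ∧ x i < m := Finset.mem_filter.1 (Finset.min'_mem _ hne)
  have hmin : ∀ t ∈ S i, x i < t → m ≤ t := fun t ht hxt =>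
    Finset.min'_le _ t (Finset.mem_filter.2 ⟨ht, hxt⟩)
  have hfil : (S i).filter (· ≤ m) = insert m ((S i).filter (· ≤ x i)) := by
    ext t
    simp only [Finset.mem_filter, Finset.mem_insert]
    constructor
    · rintro ⟨h1, h2⟩
      rcases lt_or_ge (x i) t with h3 | h3
      · exact Or.inl (le_antisymm h2 (hmin t h1 h3))
      · exact Or.inr ⟨h1, h3⟩
    · rintro (rfl | ⟨h1, h2⟩)
      · exact ⟨hmS.1, le_rfl⟩
      · exact ⟨h1, h2.trans hmS.2.le⟩
  have hnot : m ∉ (S i).filter (· ≤ x i) := by
    rw [Finset.mem_filter]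
    rintro ⟨_, h2⟩
    exact absurd hmS.2 (not_lt.2 h2)
  refine ⟨Function.update x i m, ?_, ?_, ?_⟩
  · intro j
    by_cases hj : j = i
    · subst hj; simpa using hmS.2.le
    · simp [hj]
  · intro j hj
    have : j ≠ i := fun h => hj (h ▸ hi)
    simp [this]
  · unfold ht
    rw [← Finset.add_sum_erase _ _ hi, ← Finset.add_sum_erase (a := i) A
      (fun i => ((S i).filter (· ≤ x i)).card) hi]
    have e1 : ∑ j ∈ A.erase i, ((S j).filter (· ≤ Function.update x i m j)).card =
        ∑ j ∈ A.erase i, ((S j).filter (· ≤ x j)).card := by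
      refine Finset.sum_congr rfl fun j hj => ?_
      have : j ≠ i := Finset.ne_of_mem_erase hj
      simp [this]
    rw [e1]
    simp only [Function.update_self]
    rw [hfil, Finset.card_insert_of_notMem hnot]
    omega

theorem ht_lift [DecidableEq ι] (A : Finset ι) (S : ∀ i, Finset (W i)) (n : ℕ) :
    ∀ (x : ∀ i, W i), ht A S x + n ≤ ∑ i ∈ A, (S i).card →
    ∃ y, x ≤ y ∧ (∀ i ∉ A, y i = x i) ∧ ht A S y = ht A S x + n := by
  induction n with
  | zero => intro x _; exact ⟨x, le_rfl, fun _ _ => rfl, rfl⟩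
  | succ n ih =>
    intro x hx
    obtain ⟨y, h1, h2, h3⟩ := ih x (by omega)
    obtain ⟨z, k1, k2, k3⟩ := ht_succ A S y (by omega)
    exact ⟨z, h1.trans k1, fun i hi => (k2 i hi).trans (h2 i hi), by omega⟩

theorem ht_congr (A : Finset ι) (S : ∀ i, Finset (W i)) {x y : ∀ i, W i}
    (h : ∀ i ∈ A, x i = y i) : ht A S x = ht A S y :=
  Finset.sum_congr rfl fun i hi => by rw [h i hi]

theorem grid_of [DecidableEq ι] (A B : Finset ι) (hAB : Disjoint A B) (S : ∀ i, Finset (W i))
    (s : ℕ) (hA : s ≤ ∑ i ∈ A, (S i).card) (hB : s ≤ ∑ i ∈ B, (S i).card) (x₀ : ∀ i, W i)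
    (hx₀ : ∀ i ∈ A ∪ B, ∀ t ∈ S i, x₀ i < t) : Nonempty (Grid (∀ i, W i) s) := by
  have hz : ∀ D : Finset ι, D ⊆ A ∪ B → ht D S x₀ = 0 := by
    intro D hD
    refine Finset.sum_eq_zero fun i hi => ?_
    rw [Finset.card_eq_zero, Finset.filter_eq_empty_iff]
    intro t ht
    exact not_le.2 (hx₀ i (hD hi) t ht)
  refine ⟨⟨ht A S, ht B S, ht_mono A S, ht_mono B S, x₀, hz A Finset.subset_union_left,
    hz B Finset.subset_union_right, ?_⟩⟩
  intro x a b ha hb hab
  obtain ⟨y, h1, h2, h3⟩ := ht_lift A S (a - ht A S x) x (by omega)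
  have hyB : ht B S y = ht B S x :=
    ht_congr B S fun i hi => h2 i fun hi' => Finset.disjoint_left.1 hAB hi' hi
  obtain ⟨z, k1, k2, k3⟩ := ht_lift B S (b - ht B S y) y (by omega)
  have hzA : ht A S z = ht A S y :=
    ht_congr A S fun i hi => k2 i fun hi' => Finset.disjoint_left.1 hAB hi hi'
  exact ⟨z, h1.trans k1, by omega, by omega⟩

/-- two infinite factors -/
theorem grid_infinite [∀ i, Nonempty (W i)] {i j : ι} (hij : i ≠ j) (hi : Infinite (W i))
    (hj : Infinite (W j)) (s : ℕ) : Nonempty (Grid (∀ i, W i) s) := by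
  classical
  have hex : ∀ l, l = i ∨ l = j → ∃ (S : Finset (W l)) (t : W l), S.card = s ∧ ∀ u ∈ S, t < u := by
    intro l hl
    have hinf : Infinite (W l) := by rcases hl with rfl | rfl <;> assumption
    obtain ⟨S, hS⟩ := Infinite.exists_subset_card_eq (W l) (s + 1)
    have hne : S.Nonempty := Finset.card_pos.1 (by omega)
    refine ⟨S.erase (S.min' hne), S.min' hne, ?_, ?_⟩
    · rw [Finset.card_erase_of_mem (Finset.min'_mem _ _), hS]; omega
    · intro u hu
      exact Finset.min'_lt_of_mem_erase_min' _ _ hu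
  obtain ⟨Si, ti, hSi, hti⟩ := hex i (Or.inl rfl)
  obtain ⟨Sj, tj, hSj, htj⟩ := hex j (Or.inr rfl)
  let S : ∀ l, Finset (W l) := fun l =>
    if h : l = i then h ▸ Si else if h : l = j then h ▸ Sj else ∅
  let x₀ : ∀ l, W l := fun l =>
    if h : l = i then h ▸ ti else if h : l = j then h ▸ tj else Classical.arbitrary _
  have e1 : S i = Si := by simp [S]
  have e2 : S j = Sj := by simp [S, hij.symm]
  have e3 : x₀ i = ti := by simp [x₀]
  have e4 : x₀ j = tj := by simp [x₀, hij.symm]
  refine grid_of {i} {j} (by simpa using hij) S s ?_ ?_ x₀ ?_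
  · simp [e1, hSi]
  · simp [e2, hSj]
  · intro l hl t ht
    rw [Finset.mem_union, Finset.mem_singleton, Finset.mem_singleton] at hl
    rcases hl with rfl | rfl
    · rw [e3]; rw [e1] at ht; exact hti t ht
    · rw [e4]; rw [e2] at ht; exact htj t ht

/-- infinitely many nontrivial factors -/
theorem grid_nontrivial [∀ i, Nonempty (W i)] (h : {i | Nontrivial (W i)}.Infinite) (s : ℕ) :
    Nonempty (Grid (∀ i, W i) s) := by
  classical
  obtain ⟨A, hA, hAc⟩ := h.exists_subset_card_eq s
  have h2 : ({i | Nontrivial (W i)} \ (A : Set ι)).Infinite := h.sdiff A.finite_toSet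
  obtain ⟨B, hB, hBc⟩ := h2.exists_subset_card_eq s
  have hex : ∀ l, ∃ p : W l × W l, Nontrivial (W l) → p.1 < p.2 := by
    intro l
    by_cases hl : Nontrivial (W l)
    · obtain ⟨a, b, hab⟩ := exists_pair_lt (W l)
      exact ⟨(a, b), fun _ => hab⟩
    · exact ⟨(Classical.arbitrary _, Classical.arbitrary _), fun h => absurd h hl⟩
  choose p hp using hex
  refine grid_of A B ?_ (fun l => {(p l).2}) s (by simp [hAc]) (by simp [hBc]) (fun l => (p l).1) ?_
  · rw [Finset.disjoint_left]
    intro i hi hi'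
    exact (hB hi').2 hi
  · intro l hl t ht
    have hn : Nontrivial (W l) := by
      rcases Finset.mem_union.1 hl with h | h
      · exact hA h
      · exact (hB h).1
    rw [Finset.mem_singleton] at ht
    subst ht
    exact hp l hn

/-- finitely many formulas if all factors but one are finite and almost all are trivial -/
theorem finitely_pi [∀ i, Nonempty (W i)] (h1 : {i | Nontrivial (W i)}.Finite)
    (h2 : ∀ i j, Infinite (W i) → Infinite (W j) → i = j) (k : ℕ) :
    FinitelyManyIn (ILog (∀ i, W i)) k := by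
  classical
  -- finite products
  have hfin : ∀ J : Set ι, (∀ i ∈ J, Finite (W i)) → Finite (∀ i : J, W i) := by
    intro J hJ
    have hT : Finite {i : ι // Nontrivial (W i)} := h1
    have hT2 : ∀ i : {i : J // Nontrivial (W i)}, Finite (W i) := fun i => hJ _ i.1.2
    have hT3 : Finite {i : J // Nontrivial (W i)} :=
      Finite.of_injective (fun i : {i : J // Nontrivial (W i)} =>
        (⟨i.1.1, i.2⟩ : {i : ι // Nontrivial (W i)})) (by
          rintro ⟨⟨a, ha⟩, ha'⟩ ⟨⟨b, hb⟩, hb'⟩ hab
          simp only [Subtype.mk.injEq] at hab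
          subst hab
          rfl)
    refine Finite.of_injective
      (fun (x : ∀ i : J, W i) (i : {i : J // Nontrivial (W i)}) => x i.1) ?_
    intro x y hxy
    funext i
    by_cases hi : Nontrivial (W i)
    · exact congrFun hxy ⟨i, hi⟩
    · have : Subsingleton (W i) := not_nontrivial_iff_subsingleton.1 hi
      exact Subsingleton.elim _ _
  by_cases hex : ∃ i, Infinite (W i)
  · obtain ⟨i₀, hi₀⟩ := hex
    have hP : Finite (∀ j : {j // j ≠ i₀}, W j) := by
      refine hfin {j | j ≠ i₀} fun j hj => ?_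
      by_contra hc
      exact hj (h2 j i₀ (not_finite_iff_infinite.1 hc) hi₀)
    let e : (∀ i, W i) ≃o W i₀ × (∀ j : {j // j ≠ i₀}, W j) :=
      { Equiv.piSplitAt i₀ W with
        map_rel_iff' := by
          intro x y
          constructor
          · rintro ⟨h1, h2⟩ i
            by_cases hi : i = i₀
            · subst hi; exact h1
            · exact h2 ⟨i, hi⟩
          · intro h
            exact ⟨h i₀, fun j => h j⟩ }
    exact FinitelyManyIn.congr e (finitely_prod k)
  · push Not at hex
    have hX : Finite (∀ i, W i) := by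
      have := hfin Set.univ fun i _ => not_infinite_iff_finite.1 (by simpa using hex i)
      exact Finite.of_injective (fun (x : ∀ i, W i) (i : (Set.univ : Set ι)) => x i) (by
        intro x y hxy
        funext i
        exact congrFun hxy ⟨i, trivial⟩)
    refine finitely_of_quot (∀ i, W i) fun V _ => ?_
    exact ⟨(· ≤ ·), id, fun n => V n, fun _ _ h => h, fun x u h => ⟨u, h, rfl⟩, fun _ _ => Iff.rfl⟩

end

theorem main (ι : Type u) (W : ι → Type v) [∀ i, LinearOrder (W i)] [∀ i, Nonempty (W i)]
    (k : ℕ) : FinitelyManyIn (ILog (∀ i, W i)) k ↔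
      (k ≤ 1 ∨ ({i | Nontrivial (W i)}.Finite ∧
        ∀ i j, Infinite (W i) → Infinite (W j) → i = j)) := by
  constructor
  · intro h
    by_contra hcon
    push Not at hcon
    obtain ⟨hk, hcon⟩ := hcon
    have hk2 : FinitelyManyIn (ILog (∀ i, W i)) 2 := h.mono hk
    by_cases hf : {i | Nontrivial (W i)}.Finite
    · obtain ⟨i, j, hi, hj, hij⟩ := hcon hf
      exact infinitely_of_grids (grid_infinite hij hi hj) hk2
    · exact infinitely_of_grids (grid_nontrivial hf) hk2
  · rintro (h | ⟨h1, h2⟩)
    · exact finitely_one.mono h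
    · exact finitely_pi h1 h2 k

/-- **Local finiteness for products of linear orders.** Let `W i`, `i ∈ ι`, be nonempty linear orders.
Up to equivalence modulo the intermediate logic of `∏ W i` there are only finitely many formulas in
`k` variables if and only if `k ≤ 1`, or only finitely many `W i` have more than one element and
at most one `W i` is infinite. So the logic is locally finite if and only if only finitely many
`W i` have more than one element and at most one is infinite. In particular
(third part) the logic of `ω ^ n` is locally finite if and only if `n ≤ 1`. -/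
theorem result :
    (∀ (ι : Type u) (W : ι → Type v) [∀ i, LinearOrder (W i)] [∀ i, Nonempty (W i)] (k : ℕ),
      FinitelyManyIn (ILog (∀ i, W i)) k ↔
        (k ≤ 1 ∨ ({i | Nontrivial (W i)}.Finite ∧
          ∀ i j, Infinite (W i) → Infinite (W j) → i = j))) ∧
    (∀ (ι : Type u) (W : ι → Type v) [∀ i, LinearOrder (W i)] [∀ i, Nonempty (W i)],
      LocallyFinite (ILog (∀ i, W i)) ↔
        ({i | Nontrivial (W i)}.Finite ∧ ∀ i j, Infinite (W i) → Infinite (W j) → i = j)) ∧
    (∀ n : ℕ, LocallyFinite (ILog (Fin n → ℕ)) ↔ n ≤ 1) := by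
  have loc : ∀ (ι : Type u) (W : ι → Type v) [∀ i, LinearOrder (W i)] [∀ i, Nonempty (W i)],
      LocallyFinite (ILog (∀ i, W i)) ↔
        ({i | Nontrivial (W i)}.Finite ∧ ∀ i j, Infinite (W i) → Infinite (W j) → i = j) := by
    intro ι W _ _
    constructor
    · intro h
      rcases (main ι W 2).1 (h 2) with h' | h'
      · omega
      · exact h'
    · intro h k
      exact (main ι W k).2 (Or.inr h)
  refine ⟨fun ι W _ _ k => main ι W k, fun ι W _ _ => loc ι W, fun n => ?_⟩
  constructor
  · intro h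
    rcases (main (Fin n) (fun _ => ℕ) 2).1 (h 2) with h' | ⟨_, h'⟩
    · omega
    · by_contra hn
      have := h' ⟨0, by omega⟩ ⟨1, by omega⟩ inferInstance inferInstance
      simp at this
  · intro h k
    refine (main (Fin n) (fun _ => ℕ) k).2 (Or.inr ⟨Set.toFinite _, fun i j _ _ => ?_⟩)
    exact Fin.ext (by omega)

end Pool.Agent.Results.MP_d96af6_lc.ProductsOfChains
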